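import Mathlib
set_option autoImplicit false
namespace Pool.Agent.Results.MP_89ce39_al.Yes
universe u

/-- `st` makes the semigroup `S` a regular star-semigroup -/
def IsRegStar {S : Type u} [Semigroup S] (st : S → S) : Prop :=
  (∀ a, st (st a) = a) ∧ (∀ a, a * st a * a = a) ∧ ∀ a b, st (a * b) = st b * st a

/-- the projections -/
def Proj {S : Type u} [Semigroup S] (st : S → S) : Type u := {p : S // p * p = p ∧ st p = p}

/-- the defining relations of `PG(P)` -/
def Rel {S : Type u} [Semigroup S] (st : S → S) (v w : FreeSemigroup (Proj st)) : Prop :=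
  (∃ p, v = .of p * .of p ∧ w = .of p) ∨
  (∃ p q, v = (.of p * .of q) * (.of p * .of q) ∧ w = .of p * .of q) ∨
  ∃ p q r : Proj st, r.1 = p.1 * q.1 * p.1 ∧ v = .of p * .of q * .of p ∧ w = .of r

/-- the free projection-generated semigroup -/
abbrev PG {S : Type u} [Semigroup S] (st : S → S) : Type u := (conGen (Rel st)).Quotient

/-- Green's relation `H` -/
def GreenH {M : Type u} [Semigroup M] (a b : M) : Prop :=
  (a = b ∨ ∃ v, a = v * b) ∧ (b = a ∨ ∃ v, b = v * a) ∧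
  (a = b ∨ ∃ v, a = b * v) ∧ (b = a ∨ ∃ v, b = a * v)

section A
variable {K : Type u} [GroupWithZero K]

abbrev X (K : Type u) := Fin 3 → K

def Cp (f h : X K) (g : K) : Prop :=
  (∃ t, f t ≠ 0 ∧ h t ≠ 0) ∧ ∀ t, f t ≠ 0 → h t ≠ 0 → h t = f t * g

open Classical in
noncomputable def c (f h : X K) : K := if H : ∃ g, Cp f h g then H.choose else 0

theorem Cp.ne {f h : X K} {g : K} (H : Cp f h g) : g ≠ 0 := by
  obtain ⟨⟨t, h1, h2⟩, h3⟩ := H
  intro hg
  rw [h3 t h1 h2, hg, mul_zero] at h2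
  exact h2 rfl

theorem c_eq {f h : X K} {g : K} (H : Cp f h g) : c f h = g := by
  have E : ∃ g, Cp f h g := ⟨g, H⟩
  unfold c
  rw [dif_pos E]
  obtain ⟨⟨t, h1, h2⟩, h3⟩ := H
  have := E.choose_spec.2 t h1 h2
  rw [h3 t h1 h2] at this
  exact (mul_left_cancel₀ h1 this).symm

theorem c_cp {f h : X K} (H : c f h ≠ 0) : Cp f h (c f h) := by
  by_cases E : ∃ g, Cp f h g
  · obtain ⟨g, hg⟩ := E
    rw [c_eq hg]; exact hg
  · exact absurd (by unfold c; rw [dif_neg E]) H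

def sm (f : X K) (a : K) : X K := fun t => f t * a
def rs (T : Finset (Fin 3)) (f : X K) : X K := fun t => if t ∈ T then f t else 0

theorem c_zr (f : X K) : c f 0 = 0 := by
  by_contra H
  obtain ⟨t, _, h⟩ := (c_cp H).1
  exact h rfl

theorem c_zl (f : X K) : c 0 f = 0 := by
  by_contra H
  obtain ⟨t, h, _⟩ := (c_cp H).1
  exact h rfl

theorem sm_zero (f : X K) : sm f 0 = 0 := by funext t; simp [sm]
theorem zero_sm (a : K) : sm (0 : X K) a = 0 := by funext t; simp [sm]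
theorem sm_one (f : X K) : sm f 1 = f := by funext t; simp [sm]
theorem sm_sm (f : X K) (a b : K) : sm (sm f a) b = sm f (a * b) := by
  funext t; simp [sm, mul_assoc]
theorem rs_sm (T : Finset (Fin 3)) (f : X K) (a : K) : rs T (sm f a) = sm (rs T f) a := by
  funext t; by_cases h : t ∈ T <;> simp [sm, rs, h]
theorem rs_rs (T T' : Finset (Fin 3)) (f : X K) : rs T (rs T' f) = rs (T ∩ T') f := by
  funext t; by_cases h : t ∈ T <;> by_cases h' : t ∈ T' <;> simp [rs, h, h']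

theorem Cp.sm {f h : X K} {g a : K} (H : Cp f h g) (ha : a ≠ 0) : Cp f (sm h a) (g * a) := by
  obtain ⟨⟨t, h1, h2⟩, h3⟩ := H
  refine ⟨⟨t, h1, mul_ne_zero h2 ha⟩, fun s k1 k2 => ?_⟩
  show h s * a = _
  rw [h3 s k1 (left_ne_zero_of_mul k2), mul_assoc]

theorem Cp.inv {f h : X K} {g : K} (H : Cp f h g) : Cp h f g⁻¹ := by
  have hg := H.ne
  obtain ⟨⟨t, h1, h2⟩, h3⟩ := H
  refine ⟨⟨t, h2, h1⟩, fun s k1 k2 => ?_⟩
  rw [h3 s k2 k1, mul_assoc, mul_inv_cancel₀ hg, mul_one]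

theorem c_inv (f h : X K) : c h f = (c f h)⁻¹ := by
  by_cases H : c f h = 0
  · rw [H, inv_zero]
    by_contra H'
    exact (c_cp H').inv.ne (by rw [← c_eq (c_cp H').inv, H])
  · exact c_eq (c_cp H).inv

theorem c_sm (f h : X K) (a : K) : c f (sm h a) = c f h * a := by
  by_cases ha : a = 0
  · rw [ha, sm_zero, c_zr, mul_zero]
  by_cases H : c f h = 0
  · rw [H, zero_mul]
    by_contra H'
    have := (c_cp H').sm (inv_ne_zero ha)
    rw [sm_sm, mul_inv_cancel₀ ha, sm_one] at this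
    exact this.ne (by rw [← c_eq this, H])
  · exact c_eq ((c_cp H).sm ha)

theorem cp_rs (T : Finset (Fin 3)) (f h : X K) (g : K) : Cp f (rs T h) g ↔ Cp (rs T f) h g := by
  unfold Cp rs
  constructor
  · rintro ⟨⟨t, h1, h2⟩, h3⟩
    refine ⟨⟨t, ?_⟩, fun s => ?_⟩
    · by_cases ht : t ∈ T <;> simp_all
    · have := h3 s
      by_cases ht : s ∈ T
      · simpa [ht] using this
      · simp [ht]
  · rintro ⟨⟨t, h1, h2⟩, h3⟩
    refine ⟨⟨t, ?_⟩, fun s => ?_⟩
    · by_cases ht : t ∈ T <;> simp_all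
    · have := h3 s
      by_cases ht : s ∈ T
      · simpa [ht] using this
      · simp [ht]

theorem c_rs (T : Finset (Fin 3)) (f h : X K) : c f (rs T h) = c (rs T f) h := by
  by_cases H : c f (rs T h) = 0
  · rw [H]
    by_contra H'
    have := (cp_rs T f h _).2 (c_cp (Ne.symm H'))
    exact this.ne (by rw [← c_eq this, H])
  · exact (c_eq ((cp_rs T f h _).1 (c_cp H))).symm

theorem c_self {T : Finset (Fin 3)} {f : X K} (H : rs T f ≠ 0) : c f (rs T f) = 1 := by
  apply c_eq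
  obtain ⟨t, ht⟩ := Function.ne_iff.1 H
  refine ⟨⟨t, ?_, ht⟩, fun s _ h2 => ?_⟩
  · by_cases h : t ∈ T <;> simp_all [rs]
  · by_cases h : s ∈ T <;> simp_all [rs]

def rA (T : Finset (Fin 3)) : Function.End (X K) := rs T
noncomputable def rB (f : X K) : Function.End (X K) := fun h => sm f (c f h)

theorem rB_sm (f : X K) {g : K} (hg : g ≠ 0) : rB (sm f g) = rB f := by
  funext h
  show sm (sm f g) (c (sm f g) h) = sm f (c f h)
  rw [c_inv, c_sm, sm_sm, mul_inv_rev, mul_inv_cancel_left₀ hg, ← c_inv]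

theorem ABA (T : Finset (Fin 3)) (f : X K) : rA T * rB f * rA T = rB (rs T f) := by
  funext h
  show rs T (sm f (c f (rs T h))) = sm _ _
  rw [rs_sm, c_rs]

theorem BBB {f f' : X K} (H : c f f' ≠ 0) : rB f * rB f' * rB f = rB f := by
  funext h
  show sm f (c f (sm f' (c f' (sm f (c f h))))) = sm _ _
  rw [c_sm, c_sm, c_inv f f', mul_inv_cancel_left₀ H]

def U (K : Type u) [GroupWithZero K] : Set (Function.End (X K)) :=
  {v | (∃ T, v = rA T) ∨ ∃ f, v = rB f}

theorem U_conj {v w : Function.End (X K)} (hv : v ∈ U K) (hw : w ∈ U K) : v * w * v ∈ U K := by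
  rcases hv with ⟨T, rfl⟩ | ⟨f, rfl⟩ <;> rcases hw with ⟨T', rfl⟩ | ⟨f', rfl⟩
  · refine Or.inl ⟨T ∩ T' ∩ T, ?_⟩
    funext h
    show rs T (rs T' (rs T h)) = rs _ h
    rw [rs_rs, rs_rs]
  · exact Or.inr ⟨_, ABA _ _⟩
  · by_cases H : rs T' f = 0
    · refine Or.inr ⟨0, ?_⟩
      funext h
      show sm f (c f (rs T' (sm f (c f h)))) = sm _ _
      rw [rs_sm, H, zero_sm, c_zr, sm_zero, zero_sm]
    · refine Or.inr ⟨f, ?_⟩
      funext h
      show sm f (c f (rs T' (sm f (c f h)))) = sm _ _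
      rw [rs_sm, c_sm, c_self H, one_mul]
  · by_cases H : c f f' = 0
    · refine Or.inr ⟨0, ?_⟩
      funext h
      show sm f (c f (sm f' (c f' (sm f (c f h))))) = sm _ _
      rw [c_sm, H, zero_mul, sm_zero, zero_sm]
    · exact Or.inr ⟨f, BBB H⟩

theorem U_sq {v w : Function.End (X K)} (hv : v ∈ U K) (hw : w ∈ U K) :
    v * w * (v * w) = v * w := by
  rcases hv with ⟨T, rfl⟩ | ⟨f, rfl⟩ <;> rcases hw with ⟨T', rfl⟩ | ⟨f', rfl⟩ <;> funext h
  · show rs T (rs T' (rs T (rs T' h))) = rs T (rs T' h)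
    simp only [rs_rs]
    congr 1
    ext t; simp only [Finset.mem_inter]; tauto
  · show rs T (sm f' (c f' (rs T (sm f' (c f' h))))) = rs T (sm f' (c f' h))
    by_cases H : rs T f' = 0
    · simp only [rs_sm, H, zero_sm]
    · simp only [rs_sm, c_sm, c_self H, one_mul]
  · show sm f (c f (rs T' (sm f (c f (rs T' h))))) = sm f (c f (rs T' h))
    by_cases H : rs T' f = 0
    · simp only [c_rs, H, c_zl]
    · simp only [rs_sm, c_sm, c_self H, one_mul]
  · show sm f (c f (sm f' (c f' (sm f (c f (sm f' (c f' h))))))) = sm f (c f (sm f' (c f' h)))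
    simp only [c_sm]
    by_cases H : c f f' = 0
    · simp [H]
    · rw [c_inv f f', mul_inv_cancel_left₀ H]

theorem rs_univ (f : X K) : rs Finset.univ f = f := by funext t; simp [rs]

theorem U_idem {v : Function.End (X K)} (hv : v ∈ U K) : v * v = v := by
  have h1 : (rA Finset.univ : Function.End (X K)) = 1 := by funext h; exact rs_univ h
  have := U_sq hv (Or.inl ⟨Finset.univ, rfl⟩)
  rwa [h1, mul_one] at this

theorem U_sm {v : Function.End (X K)} (hv : v ∈ U K) (h : X K) (g : K) :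
    v (sm h g) = sm (v h) g := by
  rcases hv with ⟨T, rfl⟩ | ⟨f, rfl⟩
  · exact rs_sm _ _ _
  · show sm f (c f (sm h g)) = sm (sm f _) g
    rw [c_sm, sm_sm]

end A

section B
variable {K : Type u} [GroupWithZero K] {M : Type u} [Semigroup M]

/-- the relations used -/
structure Dat (K : Type u) [GroupWithZero K] (M : Type u) [Semigroup M] where
  a : Finset (Fin 3) → M
  b : X K → M
  bb : ∀ f, b f * b f = b f
  aba : ∀ T f, a T * b f * a T = b (rs T f)
  ab2 : ∀ T f, a T * b f * (a T * b f) = a T * b f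
  ba2 : ∀ T f, b f * a T * (b f * a T) = b f * a T
  bbb : ∀ f f', c f f' ≠ 0 → b f * b f' * b f = b f
  bsm : ∀ f g, g ≠ 0 → b (sm f g) = b f

def v (t : Fin 3) : X K := Pi.single t 1

namespace Dat
variable (D : Dat K M)

theorem ab (T : Finset (Fin 3)) (f : X K) : D.a T * D.b f = D.b (rs T f) * D.b f := by
  rw [← D.aba, mul_assoc (D.a T * D.b f), D.ab2]

theorem ba (T : Finset (Fin 3)) (f : X K) : D.b f * D.a T = D.b f * D.b (rs T f) := by
  rw [← D.aba, ← D.ba2]; simp only [mul_assoc]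

theorem rs_v {T : Finset (Fin 3)} {t : Fin 3} (h : t ∈ T) : rs T (v t : X K) = v t := by
  funext s
  by_cases hs : s = t
  · subst hs; simp [rs, h]
  · simp [rs, v, hs]

theorem cp_v {f : X K} {t : Fin 3} (h : f t ≠ 0) : Cp (v t) f (f t) := by
  refine ⟨⟨t, by simp [v], h⟩, fun s h1 _ => ?_⟩
  by_cases hs : s = t
  · subst hs; simp [v]
  · simp [v, hs] at h1

theorem c_v {f : X K} {t : Fin 3} (h : f t ≠ 0) : c (v t) f ≠ 0 := by
  rw [c_eq (cp_v h)]; exact h

theorem c_v' {f : X K} {t : Fin 3} (h : f t ≠ 0) : c f (v t) ≠ 0 := by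
  rw [c_inv]; exact inv_ne_zero (c_v h)

theorem av {T : Finset (Fin 3)} {t : Fin 3} (h : t ∈ T) : D.a T * D.b (v t) = D.b (v t) := by
  rw [D.ab, rs_v h, D.bb]

theorem va {T : Finset (Fin 3)} {t : Fin 3} (h : t ∈ T) : D.b (v t) * D.a T = D.b (v t) := by
  rw [D.ba, rs_v h, D.bb]

theorem b_rs_v (f : X K) {T : Finset (Fin 3)} {t : Fin 3} (h : t ∈ T) :
    D.b f * D.b (rs T f) * D.b (v t) = D.b f * D.b (v t) := by
  rw [← D.ba, mul_assoc, D.av h]

/-- friends: pass through a common vertex -/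
theorem tri {f f' : X K} {t : Fin 3} (H : c f f' ≠ 0) (h : f t ≠ 0) (h' : f' t ≠ 0) :
    D.b f * D.b f' * D.b (v t) = D.b f * D.b (v t) := by
  classical
  set T : Finset (Fin 3) := Finset.univ.filter (fun s => f s ≠ 0) with hT
  set T' : Finset (Fin 3) := Finset.univ.filter (fun s => f' s ≠ 0) with hT'
  have e1 : rs T f = f := by funext s; by_cases hs : f s = 0 <;> simp [rs, hT, hs]
  have e2 : rs T f' = sm (rs T' f) (c f f') := by
    funext s
    by_cases hs : f s = 0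
    · simp [rs, sm, hT, hs]
    · by_cases hs' : f' s = 0
      · simp [rs, sm, hT', hs']
      · simp [rs, sm, hT, hT', hs, hs', (c_cp H).2 s hs hs']
  have ht : t ∈ T := by simp [hT, h]
  have ht' : t ∈ T' := by simp [hT', h']
  have e3 : D.b f * D.a T = D.b f := by rw [D.ba, e1, D.bb]
  calc D.b f * D.b f' * D.b (v t) = D.b f * D.a T * D.b f' * (D.a T * D.b (v t)) := by
        rw [e3, D.av ht]
    _ = D.b f * (D.a T * D.b f' * D.a T) * D.b (v t) := by simp only [mul_assoc]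
    _ = _ := by rw [D.aba, e2, D.bsm _ _ H, D.b_rs_v f ht']

def G (s t : Fin 3) (k : K) : M :=
  D.b (v s) * D.b (fun r => if r = s then k else if r = t then 1 else 0) * D.b (v t)

theorem G0 {s t : Fin 3} (hst : s ≠ t) {f : X K} (ht : f t ≠ 0) :
    D.b (v s) * D.b f * D.b (v t) = D.G s t (f s * (f t)⁻¹) := by
  have e : rs {s, t} f =
      sm (fun r => if r = s then f s * (f t)⁻¹ else if r = t then 1 else 0) (f t) := by
    funext r
    by_cases h1 : r = s
    · subst h1; simp [rs, sm, ht]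
    · by_cases h2 : r = t
      · subst h2; simp [rs, sm, h1]
      · simp [rs, sm, h1, h2]
  calc D.b (v s) * D.b f * D.b (v t)
      = D.b (v s) * D.a {s, t} * D.b f * (D.a {s, t} * D.b (v t)) := by
        rw [D.va (by simp), D.av (by simp)]
    _ = D.b (v s) * (D.a {s, t} * D.b f * D.a {s, t}) * D.b (v t) := by simp only [mul_assoc]
    _ = _ := by rw [D.aba, e, D.bsm _ _ ht]; rfl

theorem mid (s r : Fin 3) {t : Fin 3} {f : X K} (ht : f t ≠ 0) :
    D.b (v s) * D.b f * D.b (v t) * (D.b (v t) * D.b f * D.b (v r)) =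
      D.b (v s) * D.b f * D.b (v r) := by
  calc _ = D.b (v s) * (D.b f * (D.b (v t) * D.b (v t)) * D.b f) * D.b (v r) := by
        simp only [mul_assoc]
    _ = _ := by rw [D.bb, D.bbb _ _ (c_v' ht)]

theorem G1 {s t r : Fin 3} (h1 : s ≠ t) (h2 : t ≠ r) (h3 : s ≠ r) (k : K) {k' : K}
    (hk : k' ≠ 0) : D.G s t k * D.G t r k' = D.G s r (k * k') := by
  let f : X K := fun q => if q = s then k * k' else if q = t then k' else 1
  have fs : f s = k * k' := by simp [f]
  have ft : f t = k' := by simp [f, h1.symm]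
  have fr : f r = 1 := by simp [f, h2.symm, h3.symm]
  have a1 := D.G0 h1 (f := f) (by rw [ft]; exact hk)
  have a2 := D.G0 h2 (f := f) (by rw [fr]; exact one_ne_zero)
  have a3 := D.G0 h3 (f := f) (by rw [fr]; exact one_ne_zero)
  rw [fs, ft, mul_inv_cancel_right₀ hk] at a1
  rw [ft, fr, inv_one, mul_one] at a2
  rw [fs, fr, inv_one, mul_one] at a3
  rw [← a1, ← a2, ← a3, D.mid _ _ (by rw [ft]; exact hk)]

theorem G2 {s t : Fin 3} (h1 : s ≠ t) {k : K} (hk : k ≠ 0) :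
    D.G s t k * D.G t s k⁻¹ = D.b (v s) := by
  let f : X K := fun q => if q = s then k else 1
  have fs : f s = k := by simp [f]
  have ft : f t = 1 := by simp [f, h1.symm]
  have a1 := D.G0 h1 (f := f) (by rw [ft]; exact one_ne_zero)
  have a2 := D.G0 h1.symm (f := f) (by rw [fs]; exact hk)
  rw [fs, ft, inv_one, mul_one] at a1
  rw [fs, ft, one_mul] at a2
  rw [← a1, ← a2, D.mid _ _ (by rw [ft]; exact one_ne_zero), D.bbb _ _ (c_v (by rw [fs]; exact hk))]

theorem vG (s t : Fin 3) (k : K) : D.b (v s) * D.G s t k = D.G s t k := by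
  unfold G; rw [← mul_assoc, ← mul_assoc, D.bb]

def ψ (t : Fin 3) (g : K) : M := if t = 0 then D.G 0 1 1 * D.G 1 0 g else D.G t 0 g

theorem vψ (t : Fin 3) (g : K) : D.b (v t) * D.ψ t g = D.ψ t g := by
  unfold ψ
  split_ifs with h
  · rw [h, ← mul_assoc, D.vG]
  · exact D.vG _ _ _

theorem P01 (k h : K) {m : K} (hh : h ≠ 0) (hm : m ≠ 0) :
    D.G 0 1 k * D.G 1 0 h = D.G 0 2 (k * h * m⁻¹) * D.G 2 0 m := by
  have := D.G1 (s := 1) (t := 2) (r := 0) (by decide) (by decide) (by decide) (h * m⁻¹) hm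
  rw [inv_mul_cancel_right₀ hm] at this
  rw [← this, ← mul_assoc, D.G1 (by decide) (by decide) (by decide) _
    (mul_ne_zero hh (inv_ne_zero hm)), mul_assoc]

theorem II0 {t : Fin 3} (ht : t ≠ 0) {g h : K} (hg : g ≠ 0) (hh : h ≠ 0) :
    D.G 0 t (g * h⁻¹) * D.ψ t h = D.ψ 0 g := by
  unfold ψ
  rw [if_neg ht, if_pos rfl]
  have : t = 1 ∨ t = 2 := by omega
  rcases this with rfl | rfl
  · rw [D.P01 _ _ hh one_ne_zero, D.P01 _ _ hg one_ne_zero, inv_mul_cancel_right₀ hh, one_mul]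
  · rw [D.P01 _ _ hg hh, one_mul]

theorem II {s t : Fin 3} (hst : s ≠ t) {g h : K} (hg : g ≠ 0) (hh : h ≠ 0) :
    D.G s t (g * h⁻¹) * D.ψ t h = D.ψ s g := by
  by_cases hs : s = 0
  · subst hs; exact D.II0 hst.symm hg hh
  by_cases ht : t = 0
  · subst ht
    have := D.G2 hs (mul_ne_zero hg (inv_ne_zero hh))
    rw [mul_inv_rev, inv_inv] at this
    rw [← D.II0 hs hh hg, ← mul_assoc, this, D.vψ]
  · unfold ψ
    rw [if_neg hs, if_neg ht, D.G1 hst ht hs _ hh, inv_mul_cancel_right₀ hh]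

theorem I1 {s t : Fin 3} {f : X K} (hs : f s ≠ 0) (ht : f t ≠ 0) :
    D.b f * D.ψ s (f s) = D.b f * D.ψ t (f t) := by
  by_cases hst : s = t
  · rw [hst]
  rw [← D.II hst hs ht, ← D.G0 hst ht, mul_assoc, D.vψ, ← mul_assoc, ← mul_assoc,
    D.bbb _ _ (c_v' hs)]

open Classical in
noncomputable def τ (f : X K) : M :=
  if h : ∃ t, f t ≠ 0 then D.b f * D.ψ h.choose (f h.choose) else D.b 0

theorem τ_eq {f : X K} {t : Fin 3} (ht : f t ≠ 0) : D.τ f = D.b f * D.ψ t (f t) := by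
  have h : ∃ t, f t ≠ 0 := ⟨t, ht⟩
  unfold τ
  rw [dif_pos h]
  exact D.I1 h.choose_spec ht

theorem τ_b {f f' : X K} (H : c f' f ≠ 0) : D.b f' * D.τ f = D.τ (sm f' (c f' f)) := by
  obtain ⟨⟨t, h1, h2⟩, h3⟩ := c_cp H
  have e : sm f' (c f' f) t = f t := (h3 t h1 h2).symm
  rw [D.τ_eq h2, D.τ_eq (f := sm f' (c f' f)) (t := t) (by rw [e]; exact h2), e, D.bsm _ _ H,
    ← D.vψ t (f t), ← mul_assoc, ← mul_assoc, D.tri H h1 h2, mul_assoc]

theorem τ_a {T : Finset (Fin 3)} {f : X K} (H : rs T f ≠ 0) :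
    D.a T * D.τ f = D.τ (rs T f) := by
  obtain ⟨t, ht⟩ := Function.ne_iff.1 H
  have ht : rs T f t ≠ 0 := ht
  have e : rs T f t = f t := by by_cases h : t ∈ T <;> simp_all [rs]
  have h2 : f t ≠ 0 := e ▸ ht
  have H' : c (rs T f) f ≠ 0 := by rw [c_inv, c_self H, inv_one]; exact one_ne_zero
  rw [D.τ_eq h2, D.τ_eq ht, e, ← mul_assoc, D.ab, ← D.vψ t (f t), ← mul_assoc, D.tri H' ht h2,
    mul_assoc]

theorem τ_v : D.τ (v 0) = D.b (v 0) := by
  have h : (v 0 : X K) 0 = 1 := by simp [v]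
  rw [D.τ_eq (t := 0) (by rw [h]; exact one_ne_zero), D.vψ, h]
  have := D.G2 (s := 0) (t := 1) (by decide) (one_ne_zero (α := K))
  rw [inv_one] at this
  exact this

end Dat
end B

section C
variable {N : Type u} [Monoid N]

def sw (a : N × Nᵐᵒᵖ) : N × Nᵐᵒᵖ := (a.2.unop, .op a.1)
theorem sw_sw (a : N × Nᵐᵒᵖ) : sw (sw a) = a := rfl
theorem sw_mul (a b : N × Nᵐᵒᵖ) : sw (a * b) = sw b * sw a := rfl
def dg (w : N) : N × Nᵐᵒᵖ := (w, .op w)

def Good (V : Set N) (a : N × Nᵐᵒᵖ) : Prop :=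
  (∀ q ∈ dg '' V, a * q * sw a ∈ dg '' V ∧ sw a * q * a ∈ dg '' V) ∧ a * sw a ∈ dg '' V ∧
    sw a * a ∈ dg '' V ∧ a * sw a * a = a

theorem Good.star {V : Set N} {a : N × Nᵐᵒᵖ} (h : Good V a) : Good V (sw a) := by
  obtain ⟨h1, h2, h3, h4⟩ := h
  refine ⟨fun q hq => (h1 q hq).symm, h3, h2, ?_⟩
  have := congrArg sw h4
  rw [sw_mul, sw_mul, sw_sw, ← mul_assoc] at this
  exact this

theorem Good.mul {V : Set N} (h3 : ∀ p ∈ V, ∀ q ∈ V, p * q * (p * q) = p * q)
    {a b : N × Nᵐᵒᵖ} (ha : Good V a) (hb : Good V b) : Good V (a * b) := by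
  obtain ⟨a1, a2, a3, a4⟩ := ha
  obtain ⟨b1, b2, b3, b4⟩ := hb
  refine ⟨fun q hq => ⟨?_, ?_⟩, ?_, ?_, ?_⟩
  · have := (a1 _ (b1 q hq).1).1
    simpa only [sw_mul, mul_assoc] using this
  · have := (b1 _ (a1 q hq).2).2
    simpa only [sw_mul, mul_assoc] using this
  · have := (a1 _ b2).1
    simpa only [sw_mul, mul_assoc] using this
  · have := (b1 _ a3).2
    simpa only [sw_mul, mul_assoc] using this
  · obtain ⟨p, hp, ep⟩ := a3
    obtain ⟨q, hq, eq⟩ := b2
    have e : dg p * dg q * (dg p * dg q) = dg p * dg q :=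
      Prod.ext (h3 p hp q hq) (congrArg MulOpposite.op (h3 q hq p hp))
    rw [ep, eq] at e
    calc a * b * sw (a * b) * (a * b)
        = (a * sw a * a) * (b * sw b) * (sw a * a) * (b * sw b * b) := by
          rw [a4, b4, sw_mul]; simp only [mul_assoc]
      _ = a * (sw a * a * (b * sw b) * (sw a * a * (b * sw b))) * b := by simp only [mul_assoc]
      _ = (a * sw a * a) * (b * sw b * b) := by rw [e]; simp only [mul_assoc]
      _ = _ := by rw [a4, b4]

theorem good_dg {V : Set N} (h1 : ∀ p ∈ V, p * p = p) (h2 : ∀ p ∈ V, ∀ q ∈ V, p * q * p ∈ V)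
    {w : N} (hw : w ∈ V) : Good V (dg w) := by
  have e : dg w * dg w = dg w := Prod.ext (h1 w hw) (congrArg MulOpposite.op (h1 w hw))
  have s : sw (dg w) = dg w := rfl
  rw [Good, s, e, e]
  refine ⟨?_, ⟨w, hw, rfl⟩, ⟨w, hw, rfl⟩, rfl⟩
  rintro _ ⟨q, hq, rfl⟩
  have : dg w * dg q * dg w ∈ dg '' V :=
    ⟨_, h2 w hw q hq, Prod.ext rfl (congrArg MulOpposite.op (mul_assoc _ _ _))⟩
  exact ⟨this, this⟩

end C

section E
variable (K : Type u) [GroupWithZero K]

def S : Subsemigroup (Function.End (X K) × (Function.End (X K))ᵐᵒᵖ) where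
  carrier := {a | Good (U K) a}
  mul_mem' := Good.mul fun _ hp _ hq => U_sq hp hq

def st (a : S K) : S K := ⟨sw a.1, Good.star a.2⟩

variable {K}

def pr (w : Function.End (X K)) (hw : w ∈ U K) : Proj (st K) :=
  ⟨⟨dg w, good_dg (fun _ h => U_idem h) (fun _ hp _ hq => U_conj hp hq) hw⟩,
    Subtype.ext (Prod.ext (U_idem hw) (congrArg MulOpposite.op (U_idem hw))), rfl⟩

theorem pr_surj (p : Proj (st K)) : ∃ w hw, p = pr w hw := by
  obtain ⟨⟨a, ha⟩, h1, h2⟩ := p
  have h1 : a * a = a := congrArg Subtype.val h1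
  have h2 : sw a = a := congrArg Subtype.val h2
  obtain ⟨w, hw, e⟩ := ha.2.1
  rw [h2, h1] at e
  subst e
  exact ⟨w, hw, rfl⟩

def x (w : Function.End (X K)) (hw : w ∈ U K) : PG (st K) :=
  ((FreeSemigroup.of (pr w hw) : FreeSemigroup (Proj (st K))) : (conGen (Rel (st K))).Quotient)

theorem rel {a b : FreeSemigroup (Proj (st K))} (h : Rel (st K) a b) :
    (a : (conGen (Rel (st K))).Quotient) = b :=
  (Con.eq _).2 (ConGen.Rel.of _ _ h)

theorem x1 (w hw) : (x w hw : PG (st K)) * x w hw = x w hw := rel (Or.inl ⟨_, rfl, rfl⟩)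
theorem x2 (w hw w' hw') : (x w hw : PG (st K)) * x w' hw' * (x w hw * x w' hw') =
    x w hw * x w' hw' := rel (Or.inr (Or.inl ⟨_, _, rfl, rfl⟩))
theorem x3 (w hw w' hw' z hz) (h : w * w' * w = z) :
    (x w hw : PG (st K)) * x w' hw' * x w hw = x z hz := by
  subst h
  exact rel (Or.inr (Or.inr ⟨_, _, _, Subtype.ext
    (Prod.ext rfl (congrArg MulOpposite.op (mul_assoc _ _ _))), rfl, rfl⟩))

variable (K)

noncomputable def D : Dat K (PG (st K)) where
  a T := x (rA T) (Or.inl ⟨T, rfl⟩)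
  b f := x (rB f) (Or.inr ⟨f, rfl⟩)
  bb _ := x1 _ _
  aba T f := x3 _ _ _ _ _ _ (ABA T f)
  ab2 _ _ := x2 _ _ _ _
  ba2 _ _ := x2 _ _ _ _
  bbb _ _ H := x3 _ _ _ _ _ _ (BBB H)
  bsm f g hg := by simp only [rB_sm f hg]

def π0 : FreeSemigroup (Proj (st K)) →ₙ* Function.End (X K) :=
  FreeSemigroup.lift fun p => p.1.1.1

theorem π0_rel {a b : FreeSemigroup (Proj (st K))} (h : conGen (Rel (st K)) a b) :
    π0 K a = π0 K b := by
  induction h with
  | of a b h =>
    rcases h with ⟨p, rfl, rfl⟩ | ⟨p, q, rfl, rfl⟩ | ⟨p, q, r, e, rfl, rfl⟩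
    · obtain ⟨w, hw, rfl⟩ := pr_surj p
      exact U_idem hw
    · obtain ⟨w, hw, rfl⟩ := pr_surj p
      obtain ⟨w', hw', rfl⟩ := pr_surj q
      exact U_sq hw hw'
    · exact (congrArg (fun z : S K => z.1.1) e).symm
  | refl => rfl
  | symm _ ih => exact ih.symm
  | trans _ _ i1 i2 => exact i1.trans i2
  | mul _ _ i1 i2 => rw [map_mul, map_mul, i1, i2]

def π (m : PG (st K)) : Function.End (X K) := Con.liftOn m (π0 K) fun _ _ h => π0_rel K h

theorem π_mul (m m' : PG (st K)) (f : X K) : π K (m * m') f = π K m (π K m' f) := by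
  induction m using Con.induction_on
  induction m' using Con.induction_on
  exact congrFun (map_mul (π0 K) _ _) f

theorem ind {C : PG (st K) → Prop} (h1 : ∀ w hw, C (x w hw))
    (h2 : ∀ a b, C a → C b → C (a * b)) (m : PG (st K)) : C m := by
  induction m using Con.induction_on with
  | H w =>
    induction w using FreeSemigroup.recOnMul with
    | ih1 p => obtain ⟨w, hw, rfl⟩ := pr_surj p; exact h1 w hw
    | ih2 p y i1 i2 => exact h2 _ _ i1 i2

theorem π_sm (m : PG (st K)) : ∀ f g, π K m (sm f g) = sm (π K m f) g := by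
  refine ind K (C := fun m => ∀ f g, π K m (sm f g) = sm (π K m f) g) ?_ ?_ m
  · exact fun w hw => U_sm hw
  · intro a b ha hb f g
    rw [π_mul, π_mul, hb, ha]

theorem π_zero (m : PG (st K)) : π K m 0 = 0 := by
  rw [← sm_zero 0, π_sm, sm_zero, sm_zero]

theorem key (m : PG (st K)) : ∀ f, π K m f ≠ 0 → m * (D K).τ f = (D K).τ (π K m f) := by
  refine ind K (C := fun m => ∀ f, π K m f ≠ 0 → m * (D K).τ f = (D K).τ (π K m f)) ?_ ?_ m
  · rintro w (⟨T, rfl⟩ | ⟨f', rfl⟩) f h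
    · exact (D K).τ_a h
    · refine (D K).τ_b (f' := f') fun h0 => h ?_
      show sm f' (c f' f) = 0
      rw [h0, sm_zero]
  · intro a b ha hb f h
    rw [π_mul] at h ⊢
    rw [mul_assoc, hb f (fun h0 => h (by rw [h0, π_zero])), ha _ h]

noncomputable def e : PG (st K) := (D K).b (v 0)

theorem uniq {m m' : PG (st K)} (h1 : m * e K = m) (h2 : m' * e K = m')
    (h : π K m (v 0) = π K m' (v 0)) (h0 : π K m' (v 0) ≠ 0) : m = m' := by
  rw [← h1, ← h2, e, ← Dat.τ_v, key K m _ (h ▸ h0), key K m' _ h0, h]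

theorem π_e (f : X K) : π K (e K) f = sm (v 0) (c (v 0) f) := rfl

theorem π_ev : π K (e K) (v 0) = v 0 := by
  have h : (v 0 : X K) 0 = 1 := by simp [v]
  rw [π_e, c_eq (Dat.cp_v (by rw [h]; exact one_ne_zero)), h, sm_one]

noncomputable def φ (g : K) : PG (st K) :=
  (D K).a {0} * ((D K).b (fun t => if t = 0 then g else 1) * ((D K).a {1} *
    ((D K).b (fun _ => 1) * e K)))

theorem π_φ (g : K) : π K (φ K g) (v 0) = sm (v 0) g := by
  unfold φ
  rw [π_mul, π_mul, π_mul, π_mul, π_ev]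
  have e0 : (v 0 : X K) = rs {0} (fun _ => 1) := by
    funext t; by_cases h : t = 0 <;> simp [v, rs, h]
  have e1 : (rs {1} (fun _ => 1) : X K) = rs {1} (fun t => if t = 0 then g else 1) := by
    funext t; by_cases h : t = 1 <;> simp [rs, h]
  have n0 : (rs {0} (fun _ => 1) : X K) ≠ 0 := fun h => by simpa [rs] using congrFun h 0
  have n1 : (rs {1} (fun t => if t = 0 then g else 1) : X K) ≠ 0 := fun h => by
    simpa [rs] using congrFun h 1
  show rs {0} (sm _ (c _ (rs {1} (sm _ (c _ (v 0)))))) = _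
  rw [e0, c_self n0, sm_one, e1, c_self n1, sm_one]
  funext t; by_cases h : t = 0 <;> simp [sm, rs, h]

theorem φ_e (g : K) : φ K g * e K = φ K g := by
  unfold φ e
  simp only [mul_assoc, (D K).bb]

theorem ne0 {g : K} (hg : g ≠ 0) : sm (v 0) g ≠ 0 := fun h => hg (by simpa [sm, v] using congrFun h 0)

theorem φ_mul {g h : K} (hg : g ≠ 0) (hh : h ≠ 0) : φ K (g * h) = φ K g * φ K h := by
  symm
  refine uniq K (by rw [mul_assoc, φ_e]) (φ_e K _) ?_ (by rw [π_φ]; exact ne0 K (mul_ne_zero hg hh))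
  rw [π_mul, π_φ, π_sm, π_φ, π_φ, sm_sm]

theorem φ_one : φ K 1 = e K :=
  uniq K (φ_e K _) ((D K).bb _) (by rw [π_φ, π_ev, sm_one])
    (by rw [π_ev, ← sm_one (v 0)]; exact ne0 K one_ne_zero)

end E

theorem result (G : Type u) [Group G] :
    ∃ (S : Type u) (_ : Semigroup S) (st : S → S), IsRegStar st ∧
      ∃ e : PG st, e * e = e ∧ ∃ φ : G → PG st, Function.Injective φ ∧
        (∀ g h, φ (g * h) = φ g * φ h) ∧ ∀ a, a ∈ Set.range φ ↔ GreenH a e := by
  refine ⟨S (WithZero G), inferInstance, st _,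
    ⟨fun _ => rfl, fun a => Subtype.ext a.2.2.2.2, fun _ _ => rfl⟩, e _, (D _).bb _,
    fun g => φ _ (g : WithZero G), fun g h H => ?_,
    fun g h => ?_, fun a => ⟨?_, ?_⟩⟩
  rotate_left
  · show φ _ ((g * h : G) : WithZero G) = _
    rw [WithZero.coe_mul]
    exact φ_mul _ WithZero.coe_ne_zero WithZero.coe_ne_zero
  rotate_right
  · have := congrArg (fun m => π _ m (v 0) 0) H
    simp only [π_φ] at this
    simpa [sm, v] using this
  · rintro ⟨g, rfl⟩
    have hg : (g : WithZero G) ≠ 0 := WithZero.coe_ne_zero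
    refine ⟨Or.inr ⟨_, (φ_e _ _).symm⟩, Or.inr ⟨φ _ (g : WithZero G)⁻¹, ?_⟩,
      Or.inr ⟨φ _ (g : WithZero G), ?_⟩, Or.inr ⟨φ _ (g : WithZero G)⁻¹, ?_⟩⟩
    · rw [← φ_mul _ (inv_ne_zero hg) hg, inv_mul_cancel₀ hg, φ_one]
    · rw [← φ_one, ← φ_mul _ one_ne_zero hg, one_mul]
    · rw [← φ_mul _ hg (inv_ne_zero hg), mul_inv_cancel₀ hg, φ_one]
  · rintro ⟨h1, h2, h3, -⟩
    have ee : e (WithZero G) * e _ = e _ := (D _).bb _
    have nv : (v 0 : X (WithZero G)) ≠ 0 := by rw [← sm_one (v 0)]; exact ne0 _ one_ne_zero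
    have k1 : a * e _ = a := by
      rcases h1 with rfl | ⟨w, rfl⟩
      · exact ee
      · rw [mul_assoc, ee]
    have k3 : e _ * a = a := by
      rcases h3 with rfl | ⟨w, rfl⟩
      · exact ee
      · rw [← mul_assoc, ee]
    have k2 : π _ a (v 0) ≠ 0 := by
      rcases h2 with h | ⟨w, h⟩
      · rw [← h, π_ev]; exact nv
      · intro h0
        have := π_ev (WithZero G)
        rw [h, π_mul, h0, π_zero] at this
        exact nv this.symm
    have k4 : π _ a (v 0) = sm (v 0) (c (v 0) (π _ a (v 0))) := by rw [← π_e, ← π_mul, k3]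
    have k5 : c (v 0) (π _ a (v 0)) ≠ 0 := fun h => k2 (by rw [k4, h, sm_zero])
    obtain ⟨g, hg⟩ := WithZero.ne_zero_iff_exists.1 k5
    exact ⟨g, uniq _ (φ_e _ _) k1 (by rw [π_φ, hg, ← k4]) k2⟩

end Pool.Agent.Results.MP_89ce39_al.Yes
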